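import Pool.Agent.Helper82.TU.Abs

/-!
# Project TU (helper82): a box of polynomials with positive derivative at the real places

After `N648/TF/Famr.lean` (helper648).
-/

set_option autoImplicit false
set_option linter.all false

open Polynomial NumberField IsDedekindDomain
open scoped Classical

namespace Pool.Agent.Helper82.TU

open Pool.Agent.N352.PJ (dd pol dis Dy D2)
open Pool.Agent.N352.PF (dg Bal nv rv Bz Bx S_BX)
open Pool.Agent.N783.PF (fF)

/-- The constant. -/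
def Ec (g : ℕ) : ℕ := 16 * (2 * g + 1) ^ 2

lemma Ec_ge (g : ℕ) : 16 ≤ Ec g := by
  unfold Ec
  have : 1 ≤ (2 * g + 1) ^ 2 := Nat.one_le_pow _ _ (by omega)
  omega

section sh

variable {F : Type} [Field F] [NumberField F] {g : ℕ}

/-- The shift of the coefficient of `x`. -/
noncomputable def sh (T : ℕ) (b : Fin (2 * g) → 𝓞 F) : Fin (2 * g) → 𝓞 F :=
  fun j => if (j : ℕ) = 1 then b j + (T : 𝓞 F) else b j

theorem sh_inj (T : ℕ) : Function.Injective (sh (F := F) (g := g) T) := by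
  intro a b h
  funext j
  have h1 := congrFun h j
  unfold sh at h1
  split_ifs at h1 with hj
  · exact add_right_cancel h1
  · exact h1

theorem real_bd {B : ℕ} {x : 𝓞 F} (hx : x ∈ Bal F B) (σ : F →+* ℝ) :
    |σ (x : F)| ≤ B := by
  have h1 := hx (Complex.ofRealHom.comp σ)
  have e : ‖(Complex.ofRealHom.comp σ) (x : F)‖ = |σ (x : F)| := by
    change ‖((σ (x : F) : ℝ) : ℂ)‖ = _
    rw [Complex.norm_real, Real.norm_eq_abs]
  rw [← e]
  exact h1

/-- Powers. -/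
lemma pw {B B' m : ℕ} (h : B' * Ec g ≤ B) (hm : 1 ≤ m) : B' ^ m * Ec g ≤ B ^ m := by
  have hE := Ec_ge g
  calc B' ^ m * Ec g ≤ B' ^ m * Ec g ^ m :=
        Nat.mul_le_mul_left _ (Nat.le_self_pow (by omega) _)
    _ = (B' * Ec g) ^ m := (mul_pow _ _ _).symm
    _ ≤ B ^ m := Nat.pow_le_pow_left h m

/-- The derivative of the polynomials in the sub-box is positive. -/
theorem mono_pol {B B' T : ℕ} (hg : 1 ≤ g) (hB : 1 ≤ B) (hBB : B' * Ec g ≤ B)
    (hT : B ^ (2 * g) ≤ 4 * T) {b : Fin (2 * g) → 𝓞 F} (hb : b ∈ Bz F g B') :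
    MonoF (pol (sh T b)) := by
  intro σ x
  have hE := Ec_ge g
  have hER : (0 : ℝ) < (Ec g : ℝ) := by
    have : 0 < Ec g := by omega
    exact_mod_cast this
  have hBR : (1 : ℝ) ≤ (B : ℝ) := by exact_mod_cast hB
  have hB0 : (0 : ℝ) ≤ (B : ℝ) := by linarith
  obtain ⟨a, ha⟩ : ∃ a : Fin (2 * g) → 𝓞 F, a = sh T b := ⟨_, rfl⟩
  rw [← ha]
  have hev : (derivative ((fF (pol a)).map σ)).eval x = ((2 * g + 1 : ℕ) : ℝ) * x ^ (2 * g) +
      ∑ j : Fin (2 * g), σ (a j : F) * (((j : ℕ) : ℝ) * x ^ ((j : ℕ) - 1)) := by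
    unfold pol fF
    rw [Polynomial.map_map, Polynomial.map_add, Polynomial.map_pow, map_X, Polynomial.map_sum,
      derivative_add, derivative_X_pow, derivative_sum, eval_add, eval_finset_sum]
    congr 1
    · simp
    · refine Finset.sum_congr rfl fun j _ => ?_
      rw [Polynomial.map_mul, map_C, Polynomial.map_pow, map_X, derivative_C_mul,
        derivative_X_pow]
      simp
  rw [hev]
  set T₀ : ℝ := (B : ℝ) ^ (2 * g) + x ^ (2 * g) with hT₀
  have hx0 : (0 : ℝ) ≤ x ^ (2 * g) := by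
    rw [pow_mul]
    positivity
  have hBp : (0 : ℝ) < (B : ℝ) ^ (2 * g) := by positivity
  have hT0 : 0 ≤ T₀ := by positivity
  have key : ∀ j : Fin (2 * g), (if (j : ℕ) = 1 then 3 / 16 * (B : ℝ) ^ (2 * g) else 0) -
      (2 * g : ℝ) / (Ec g : ℝ) * T₀ ≤ σ (a j : F) * (((j : ℕ) : ℝ) * x ^ ((j : ℕ) - 1)) := by
    intro j
    have hj2 := j.2
    have hneg : 0 ≤ (2 * g : ℝ) / (Ec g : ℝ) * T₀ := by positivity
    have hbj := real_bd (hb j) σ
    have haj : a j = sh T b j := by rw [ha]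
    unfold sh at haj
    split_ifs at haj with hj
    · rw [if_pos hj]
      rw [hj] at hbj
      have e : 2 * g + 1 - 1 = 2 * g := by omega
      rw [e] at hbj
      have h3 : B' ^ (2 * g) * 16 ≤ B ^ (2 * g) :=
        (Nat.mul_le_mul_left _ hE).trans (pw hBB (by omega))
      have h4 : ((B' ^ (2 * g) : ℕ) : ℝ) * 16 ≤ (B : ℝ) ^ (2 * g) := by exact_mod_cast h3
      have h5 : (B : ℝ) ^ (2 * g) ≤ 4 * (T : ℝ) := by exact_mod_cast hT
      have h6 : σ ((a j : 𝓞 F) : F) = σ (b j : F) + T := by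
        rw [haj]
        have : (((b j + (T : 𝓞 F)) : 𝓞 F) : F) = (b j : F) + (T : F) := by
          push_cast
          rfl
        rw [this, map_add, map_natCast]
      rw [h6, hj]
      have h7 := neg_le_of_abs_le hbj
      simp only [Nat.cast_one, Nat.sub_self, pow_zero, mul_one]
      linarith
    · rw [if_neg hj, haj]
      rcases Nat.eq_zero_or_pos (j : ℕ) with hz | hz
      · rw [hz]
        simp only [Nat.cast_zero, zero_mul, mul_zero]
        linarith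
      · have hj1 : 1 ≤ (j : ℕ) := hz
        have h5 : |σ (b j : F)| ≤ (B : ℝ) ^ (2 * g + 1 - (j : ℕ)) / (Ec g : ℝ) := by
          rw [le_div_iff₀ hER]
          have h3 := pw (m := 2 * g + 1 - (j : ℕ)) hBB (by omega)
          have h4 : ((B' ^ (2 * g + 1 - (j : ℕ)) : ℕ) : ℝ) * (Ec g : ℝ) ≤
              (B : ℝ) ^ (2 * g + 1 - (j : ℕ)) := by exact_mod_cast h3
          exact (mul_le_mul_of_nonneg_right hbj hER.le).trans h4
        have h6 : (B : ℝ) ^ (2 * g + 1 - (j : ℕ)) * |x| ^ ((j : ℕ) - 1) ≤ T₀ := by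
          have e1 : (2 * g + 1 - (j : ℕ)) + ((j : ℕ) - 1) = 2 * g := by omega
          have hxa : x ^ (2 * g) = |x| ^ (2 * g) := by
            rw [pow_mul, pow_mul, sq_abs]
          rw [hT₀, hxa]
          have hx' := abs_nonneg x
          rcases le_total |x| (B : ℝ) with hc | hc
          · calc (B : ℝ) ^ (2 * g + 1 - (j : ℕ)) * |x| ^ ((j : ℕ) - 1)
                ≤ (B : ℝ) ^ (2 * g + 1 - (j : ℕ)) * (B : ℝ) ^ ((j : ℕ) - 1) := by gcongr
              _ = (B : ℝ) ^ (2 * g) := by rw [← pow_add, e1]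
              _ ≤ _ := by
                have : 0 ≤ |x| ^ (2 * g) := by positivity
                linarith
          · calc (B : ℝ) ^ (2 * g + 1 - (j : ℕ)) * |x| ^ ((j : ℕ) - 1)
                ≤ |x| ^ (2 * g + 1 - (j : ℕ)) * |x| ^ ((j : ℕ) - 1) := by gcongr
              _ = |x| ^ (2 * g) := by rw [← pow_add, e1]
              _ ≤ _ := by linarith
        have h7 : |σ (b j : F) * (((j : ℕ) : ℝ) * x ^ ((j : ℕ) - 1))| ≤
            (2 * g : ℝ) / (Ec g : ℝ) * T₀ := by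
          rw [abs_mul, abs_mul, abs_pow, Nat.abs_cast]
          have h8 : ((j : ℕ) : ℝ) ≤ 2 * g := by exact_mod_cast hj2.le
          calc |σ (b j : F)| * (((j : ℕ) : ℝ) * |x| ^ ((j : ℕ) - 1))
              ≤ ((B : ℝ) ^ (2 * g + 1 - (j : ℕ)) / (Ec g : ℝ)) *
                ((2 * g : ℝ) * |x| ^ ((j : ℕ) - 1)) := by gcongr
            _ = (2 * g : ℝ) / (Ec g : ℝ) *
                ((B : ℝ) ^ (2 * g + 1 - (j : ℕ)) * |x| ^ ((j : ℕ) - 1)) := by ring
            _ ≤ _ := by gcongr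
        have h8 := neg_le_of_abs_le h7
        linarith
  have hsum := Finset.sum_le_sum (s := Finset.univ) fun (j : Fin (2 * g)) _ => key j
  rw [Finset.sum_sub_distrib, Finset.sum_const, Finset.card_univ, Fintype.card_fin] at hsum
  have hone : ∑ j : Fin (2 * g), (if (j : ℕ) = 1 then 3 / 16 * (B : ℝ) ^ (2 * g) else 0) =
      3 / 16 * (B : ℝ) ^ (2 * g) := by
    rw [Finset.sum_eq_single (⟨1, by omega⟩ : Fin (2 * g))]
    · simp
    · intro b _ hb
      rw [if_neg]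
      intro hb1
      exact hb (Fin.ext hb1)
    · intro h
      exact absurd (Finset.mem_univ _) h
  rw [hone, nsmul_eq_mul] at hsum
  have hq : ((2 * g : ℕ) : ℝ) * ((2 * g : ℝ) / (Ec g : ℝ) * T₀) ≤ T₀ / 16 := by
    have h1 : (Ec g : ℝ) = 16 * (2 * g + 1) ^ 2 := by unfold Ec; push_cast; ring
    have h2 : ((2 * g : ℕ) : ℝ) * ((2 * g : ℝ) / (Ec g : ℝ)) ≤ 1 / 16 := by
      rw [h1]
      push_cast
      rw [← mul_div_assoc, div_le_div_iff₀ (by positivity) (by norm_num)]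
      nlinarith [Nat.cast_nonneg (α := ℝ) g]
    calc ((2 * g : ℕ) : ℝ) * ((2 * g : ℝ) / (Ec g : ℝ) * T₀)
        = (((2 * g : ℕ) : ℝ) * ((2 * g : ℝ) / (Ec g : ℝ))) * T₀ := by ring
      _ ≤ 1 / 16 * T₀ := mul_le_mul_of_nonneg_right h2 hT0
      _ = T₀ / 16 := by ring
  have hlead : x ^ (2 * g) ≤ ((2 * g + 1 : ℕ) : ℝ) * x ^ (2 * g) := by
    have h1 : (1 : ℝ) ≤ ((2 * g + 1 : ℕ) : ℝ) := by
      exact_mod_cast (by omega : 1 ≤ 2 * g + 1)
    nlinarith
  rw [hT₀] at hq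
  linarith

end sh

/-- Many polynomials with positive derivative in every residue class. -/
theorem sub_box (h1 : S_BX) (F : Type) [Field F] [NumberField F] (g : ℕ) (hg : 1 ≤ g) :
    ∃ C : ℕ, 1 ≤ C ∧ ∀ (B m : ℕ) (A : Fin (2 * g) → 𝓞 F), 0 < m → C * m ≤ B →
      ∃ V ⊆ Bx g B m A, (∀ a ∈ V, MonoF (pol a)) ∧
        B ^ (dg F * dd g) ≤ C * V.ncard * m ^ (2 * g * dg F) := by
  obtain ⟨C₁, hC₁, hBX⟩ := h1 F g
  have hE := Ec_ge g
  obtain ⟨D, hD⟩ : ∃ D : ℕ, D = dg F * dd g := ⟨_, rfl⟩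
  rw [← hD]
  have hE1 : 1 ≤ (2 * Ec g) ^ D := Nat.one_le_pow _ _ (by omega)
  refine ⟨C₁ * Ec g * (2 * Ec g) ^ D, ?_, fun B m A hm hB => ?_⟩
  · have : 0 < C₁ * Ec g * (2 * Ec g) ^ D := by positivity
    exact this
  have hB2 : C₁ * Ec g * m ≤ B := by
    refine le_trans ?_ hB
    exact Nat.mul_le_mul_right _ (Nat.le_mul_of_pos_right _ hE1)
  have hEm : Ec g * m ≤ B := by
    refine le_trans ?_ hB2
    rw [mul_assoc]
    exact Nat.le_mul_of_pos_left _ hC₁
  have hE0 : 0 < Ec g := by omega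
  obtain ⟨B', hB'⟩ : ∃ B' : ℕ, B' = B / Ec g := ⟨_, rfl⟩
  have hBB : B' * Ec g ≤ B := by
    rw [hB']
    exact Nat.div_mul_le_self _ _
  have hCm : C₁ * m ≤ B' := by
    rw [hB', Nat.le_div_iff_mul_le hE0]
    refine le_trans (le_of_eq ?_) hB2
    ring
  have hB'1 : 1 ≤ B' := by
    have : 0 < C₁ * m := Nat.mul_pos hC₁ hm
    omega
  have hB1 : 1 ≤ B := by
    have : 0 < B' * Ec g := Nat.mul_pos hB'1 hE0
    omega
  have hBE : B ≤ 2 * Ec g * B' := by
    have h2 : B < Ec g * (B' + 1) := by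
      rw [hB']
      exact Nat.lt_mul_div_succ B hE0
    nlinarith
  obtain ⟨N, hN⟩ : ∃ N : ℕ, N = B ^ (2 * g) := ⟨_, rfl⟩
  have hNB : B ≤ N := by
    rw [hN]
    exact Nat.le_self_pow (by omega) B
  obtain ⟨T, hT⟩ : ∃ T : ℕ, T = m * (N / (2 * m)) := ⟨_, rfl⟩
  have hT2 : 2 * T ≤ N := by
    have h2 := Nat.div_mul_le_self N (2 * m)
    rw [hT]
    nlinarith
  have hT4 : N ≤ 4 * T := by
    have h2 : N < 2 * m * (N / (2 * m) + 1) := Nat.lt_mul_div_succ N (by omega)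
    have h3 : N < 2 * T + 2 * m := by
      rw [hT]
      nlinarith
    have h4 : 16 * m ≤ N := by
      have h5 : 16 * m ≤ Ec g * m := Nat.mul_le_mul_right _ hE
      omega
    omega
  have hmT : (m : 𝓞 F) ∣ (T : 𝓞 F) := Nat.cast_dvd_cast ⟨_, hT⟩
  refine ⟨sh T '' Bx g B' m A, ?_, ?_, ?_⟩
  · rintro _ ⟨b, ⟨hb1, hb2⟩, rfl⟩
    refine ⟨fun j => ?_, fun j => ?_⟩
    · intro σ
      have h3 := hb1 j σ
      unfold sh
      split_ifs with hj
      · rw [hj] at h3 ⊢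
        have e : 2 * g + 1 - 1 = 2 * g := by omega
        rw [e] at h3 ⊢
        have e2 : (((b j + (T : 𝓞 F)) : 𝓞 F) : F) = (b j : F) + (T : F) := by
          push_cast
          rfl
        rw [e2, map_add, map_natCast]
        refine (norm_add_le _ _).trans ?_
        have e3 : ‖((T : ℕ) : ℂ)‖ = (T : ℝ) := Complex.norm_natCast T
        rw [e3]
        have h4 : B' ^ (2 * g) * 16 ≤ B ^ (2 * g) :=
          (Nat.mul_le_mul_left _ hE).trans (pw hBB (by omega))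
        rw [← hN] at h4 ⊢
        have h5 : ((B' ^ (2 * g) : ℕ) : ℝ) + T ≤ (N : ℝ) := by
          have : B' ^ (2 * g) + T ≤ N := by omega
          exact_mod_cast this
        exact (add_le_add_left h3 _).trans h5
      · refine h3.trans ?_
        have h4 : B' ^ (2 * g + 1 - (j : ℕ)) ≤ B ^ (2 * g + 1 - (j : ℕ)) :=
          Nat.pow_le_pow_left (le_trans (Nat.le_mul_of_pos_right _ hE0) hBB) _
        exact_mod_cast h4
    · unfold sh
      split_ifs with hj
      · have e : b j + (T : 𝓞 F) - A j = (b j - A j) + (T : 𝓞 F) := by ring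
        rw [e]
        exact dvd_add (hb2 j) hmT
      · exact hb2 j
  · rintro _ ⟨b, ⟨hb1, hb2⟩, rfl⟩
    exact mono_pol hg hB1 hBB (by rw [← hN]; exact hT4) hb1
  · rw [Set.ncard_image_of_injective _ (sh_inj T)]
    obtain ⟨-, h3, -⟩ := hBX B' m A hm hCm
    rw [← hD] at h3
    calc B ^ D ≤ (2 * Ec g * B') ^ D := Nat.pow_le_pow_left hBE D
      _ = (2 * Ec g) ^ D * B' ^ D := mul_pow _ _ _
      _ ≤ (2 * Ec g) ^ D * (C₁ * (Bx g B' m A).ncard * m ^ (2 * g * dg F)) :=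
        Nat.mul_le_mul_left _ h3
      _ = (C₁ * (2 * Ec g) ^ D) * (Bx g B' m A).ncard * m ^ (2 * g * dg F) := by ring
      _ ≤ (C₁ * Ec g * (2 * Ec g) ^ D) * (Bx g B' m A).ncard * m ^ (2 * g * dg F) := by
        refine Nat.mul_le_mul_right _ (Nat.mul_le_mul_right _ ?_)
        refine Nat.mul_le_mul_right _ (Nat.le_mul_of_pos_right _ hE0)

end Pool.Agent.Helper82.TU
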