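import Pool.Agent.Helper82.PT.Exs
import Pool.Agent.Helper82.TU.Fld
import Pool.Graph.R_pool_sql_team_seeded_63374d34.N160.QM.GEN
import Pool.Graph.R_pool_sql_team_seeded_63374d34.N222.QM.UR
import Pool.Graph.R_pool_sql_team_seeded_63374d34.N835.QM.SPD

/-!
# Project TU (helper82): primes which split completely in a given extension
-/

set_option autoImplicit false
set_option linter.all false

open Polynomial IsDedekindDomain NumberField
open Pool.Agent.N783.PF
open Pool.Agent.N874.QM (Gen SplitMod surj_top below_unique ov_delta)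
open Pool.Agent.N874.TF (Unr Spl)
open scoped Classical IntermediateField

namespace Pool.Agent.Helper82.TU

variable {F N : Type} [Field F] [NumberField F] [Field N] [NumberField N] [Algebra F N]

/-- A generator over `ℚ` is a generator over `F`. -/
theorem gen_up {γ : N} {m : ℤ[X]} {δ : ℕ} (hG : Gen ℚ γ m δ) : Gen F γ m δ := by
  refine ⟨?_, hG.monic, hG.root, hG.ne, hG.comb⟩
  rw [eq_top_iff]
  intro x _
  have hx : x ∈ (ℚ⟮γ⟯ : IntermediateField ℚ N) := by
    rw [hG.top]
    trivial
  have hle : (ℚ⟮γ⟯ : IntermediateField ℚ N) ≤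
      (F⟮γ⟯ : IntermediateField F N).restrictScalars ℚ := by
    rw [IntermediateField.adjoin_simple_le_iff]
    exact IntermediateField.mem_adjoin_simple_self F γ
  exact hle hx

/-- A prime over `q` splits completely if the equation of a generator splits modulo `q`. -/
theorem spl_of {γ : N} {m : ℤ[X]} {δ : ℕ} (hG : Gen ℚ γ m δ) {q : ℕ} (hq : q.Prime)
    (hsp : SplitMod q m) (hδ : ¬ q ∣ δ) (v : HeightOneSpectrum (𝓞 F))
    (hv : (q : 𝓞 F) ∈ v.asIdeal) : Spl v N := by
  have hqw : ∀ w : HeightOneSpectrum (𝓞 N), Ov v.asIdeal w → Pool.Agent.N783.PQ.Ov q w := by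
    intro w hw
    have h1 := hw _ hv
    rw [map_natCast] at h1
    exact h1
  have hδw : ∀ w : HeightOneSpectrum (𝓞 N), Ov v.asIdeal w → ¬ Pool.Agent.N783.PQ.Ov δ w := by
    intro w hw h
    obtain ⟨p, hp, hpd, hpw⟩ := ov_delta hG.ne h
    have h2 := below_unique hp hq hpw (hqw w hw)
    rw [h2] at hpd
    exact hδ hpd
  refine ⟨fun w hw => ?_, fun w hw y => ?_⟩
  · obtain ⟨𝔓, h𝔓⟩ := (Pool.Agent.N222.QM.UR.ur F N γ m δ (gen_up hG)).1 w (hδw w hw)
    have hle : v.asIdeal ≤ 𝔓.asIdeal := by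
      intro a ha
      have h3 : w.valuation N (algebraMap F N (a : F)) < 1 := by
        have h4 := hw a ha
        rw [← HeightOneSpectrum.valuation_lt_one_iff_mem (K := N) w] at h4
        exact h4
      rw [h𝔓] at h3
      exact (HeightOneSpectrum.valuation_lt_one_iff_mem (K := F) 𝔓 a).1 h3
    have e : v = 𝔓 := by
      apply HeightOneSpectrum.ext
      haveI := v.isMaximal
      exact Ideal.IsMaximal.eq_of_le v.isMaximal 𝔓.isPrime.ne_top hle
    intro x
    rw [e]
    exact h𝔓 x
  · obtain ⟨z, hz⟩ := surj_top Pool.Agent.N222.QM.UR.ur Pool.Agent.N835.QM.spd hG hq hsp w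
      (hqw w hw) (hδw w hw) y
    refine ⟨(z : 𝓞 F), ?_⟩
    rw [← hz, RingHom.comp_apply, RingHom.comp_apply, map_intCast, eq_intCast]

end Pool.Agent.Helper82.TU
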